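import Pool.Agent.Bl169.Final

set_option autoImplicit false
open Set Filter Topology Metric

namespace Pool.Agent.Results.MP_9cdd18_an.NotLocal

/-- `u` is plurisubharmonic on `U` (subset of `ℂ²`): upper semicontinuous, values in `[-∞, ∞)`, and
the sub-mean value inequality holds on every closed affine disc in `U`; the mean of `u` is written
as the limit of the means of `max u M`, so the inequality is asked for every real `M`. -/
def IsPsh (U : Set (Fin 2 → ℂ)) (u : (Fin 2 → ℂ) → EReal) : Prop :=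
  UpperSemicontinuousOn u U ∧ (∀ x ∈ U, u x ≠ ⊤) ∧
    ∀ a b : Fin 2 → ℂ, (∀ z : ℂ, ‖z‖ ≤ 1 → a + z • b ∈ U) →
      ∀ M : ℝ, u a ≤
        ((((2 * Real.pi)⁻¹ *
          ∫ θ in (0:ℝ)..(2 * Real.pi),
            (max (u (a + Complex.exp ((θ : ℂ) * Complex.I) • b)) (M : EReal)).toReal) : ℝ) : EReal)

/-- `φ` is plurisubharmonic and maximal on `U`. -/
def IsMaximal (U : Set (Fin 2 → ℂ)) (φ : (Fin 2 → ℂ) → EReal) : Prop :=
  IsPsh U φ ∧ ∀ v : (Fin 2 → ℂ) → EReal, IsPsh U v →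
    (∃ K : Set (Fin 2 → ℂ), IsCompact K ∧ K ⊆ U ∧ ∀ x ∈ U \ K, v x ≤ φ x) → ∀ x ∈ U, v x ≤ φ x

/-- the Euclidean ball of `ℂ²` -/
def Ball (a : Fin 2 → ℂ) (r : ℝ) : Set (Fin 2 → ℂ) :=
  {x | ‖x 0 - a 0‖ ^ 2 + ‖x 1 - a 1‖ ^ 2 < r ^ 2}

open Pool.Agent.Bl169 in
lemma ball_local (U : Set (Fin 2 → ℂ)) (hU : IsOpen U) (hUO : U ⊆ Om) (s : ℕ → ℕ)
    (hs : ∀ k, k ≤ s k)
    (hno : ∀ k, ∀ x ∈ U, ¬ (‖fA (s k) x‖ = ‖fB (s k) x‖ ∧ ‖fB (s k) x‖ = ‖fC (s k) x‖))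
    (a : Fin 2 → ℂ) (ha : a ∈ U) :
    ∃ r : ℝ, 0 < r ∧ closure (Ball a r) ⊆ Om ∧ IsMaximal (Ball a r) uu := by
  obtain ⟨ρ, hρ, hsub⟩ := Metric.isOpen_iff.1 hU a ha
  have h0 : Continuous (fun x : Fin 2 → ℂ => ‖x 0 - a 0‖ ^ 2 + ‖x 1 - a 1‖ ^ 2) := by fun_prop
  have hr : (0 : ℝ) < ρ / 2 := by positivity
  have hcl : closure (Ball a (ρ / 2)) ⊆ U := by
    have h1 : closure (Ball a (ρ / 2)) ⊆
        {x | ‖x 0 - a 0‖ ^ 2 + ‖x 1 - a 1‖ ^ 2 ≤ (ρ / 2) ^ 2} :=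
      closure_minimal (fun x (hx : ‖x 0 - a 0‖ ^ 2 + ‖x 1 - a 1‖ ^ 2 < (ρ / 2) ^ 2) =>
        show ‖x 0 - a 0‖ ^ 2 + ‖x 1 - a 1‖ ^ 2 ≤ (ρ / 2) ^ 2 from hx.le)
        (isClosed_le h0 continuous_const)
    refine h1.trans fun x hx => hsub ?_
    have hx' : ‖x 0 - a 0‖ ^ 2 + ‖x 1 - a 1‖ ^ 2 ≤ (ρ / 2) ^ 2 := hx
    rw [mem_ball, dist_eq_norm, pi_norm_lt_iff hρ]
    intro i
    have hi : ‖(x - a) i‖ ≤ ρ / 2 := by
      apply abs_le_of_sq_le_sq' _ hr.le |>.2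
      fin_cases i
      · simp only [Fin.zero_eta, Pi.sub_apply]
        nlinarith [sq_nonneg ‖x 1 - a 1‖]
      · simp only [Fin.mk_one, Pi.sub_apply]
        nlinarith [sq_nonneg ‖x 0 - a 0‖]
    linarith
  have hB : Ball a (ρ / 2) ⊆ U := subset_closure.trans hcl
  exact ⟨ρ / 2, hr, hcl.trans hUO,
    fmax_of_seq _ (isOpen_lt h0 continuous_const) (hB.trans hUO) s hs
      fun k x hx => hno k x (hB hx)⟩

open Pool.Agent.Bl169 in
lemma convex_Om : Convex ℝ Om := by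
  have e : Om = ball (0 : Fin 2 → ℂ) (1 / 2) := by
    ext x
    rw [mem_ball_zero_iff, pi_norm_lt_iff (by norm_num)]
    constructor
    · rintro ⟨h0, h1⟩ i
      fin_cases i
      · exact h0
      · exact h1
    · intro h
      exact ⟨h 0, h 1⟩
  rw [e]; exact convex_ball _ _

/-- **Maximality of plurisubharmonic functions is not a local notion.** There are a bounded domain
`Ω` in `ℂ²` and a plurisubharmonic function `φ` on `Ω`, finite at some point of `Ω`, such that every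
point `a` of `Ω` is the centre of an open ball with closure in `Ω` on which `φ` is maximal, while
`φ` is not maximal on `Ω`. -/
theorem result :
    ∃ (Ω : Set (Fin 2 → ℂ)) (φ : (Fin 2 → ℂ) → EReal),
      IsOpen Ω ∧ IsConnected Ω ∧ Bornology.IsBounded Ω ∧ Convex ℝ Ω ∧ IsPsh Ω φ ∧
      (∃ x ∈ Ω, φ x ≠ ⊥) ∧
      (∀ a ∈ Ω, ∃ r : ℝ, 0 < r ∧ closure (Ball a r) ⊆ Ω ∧ IsMaximal (Ball a r) φ) ∧
      ¬ IsMaximal Ω φ := by
  open Pool.Agent.Bl169 in
  refine ⟨Om, uu, isOpen_Om, convex_Om.isConnected ⟨xx, xx_mem⟩, ?_, convex_Om,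
    fpsh_uu _ subset_rfl, ⟨xx, xx_mem, ?_⟩, fun a ha => ?_, not_max⟩
  · refine (isBounded_ball (x := (0 : Fin 2 → ℂ)) (r := 1)).subset fun x hx => ?_
    rw [mem_ball_zero_iff, pi_norm_lt_iff one_pos]
    intro i
    fin_cases i
    · exact hx.1.trans (by norm_num)
    · exact hx.2.trans (by norm_num)
  · have h : ((Real.log eps - 1 : ℝ) : EReal) ≤ uu xx := by
      refine le_iInf fun j => ?_
      have hj : Real.log eps - 1 ≤ ww j xx := by
        refine le_trans ?_ (ww_anti j xx xx_mem)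
        have h1 := (x0_ratio j).2.2.2
        have h3 := (x0_ratio j).2.2.1
        have h2 : Real.log ‖fA (j + 1) xx‖ ≤ Real.log (WW (j + 1) xx) :=
          Real.log_le_log h3 (A_le (j + 1) xx)
        have hD : (0 : ℝ) < DD (j + 1) := by exact_mod_cast DD_pos (j + 1)
        have h4 : 0 ≤ Real.log 4 := Real.log_nonneg (by norm_num)
        unfold ww
        rw [le_inv_mul_iff₀ hD]
        linarith
      exact_mod_cast hj
    intro hb
    rw [hb, le_bot_iff] at h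
    exact EReal.coe_ne_bot _ h
  · have h0 : Continuous (fun x : Fin 2 → ℂ => ‖x 0‖) := (continuous_apply 0).norm
    have hlt : (1 / 4 : ℝ) ^ 600 < (1 / 4 : ℝ) ^ 500 :=
      pow_lt_pow_right_of_lt_one₀ (by norm_num) (by norm_num) (by norm_num)
    by_cases h : (1 / 4 : ℝ) ^ 600 < ‖a 0‖
    · exact ball_local (Om ∩ {y | (1 / 4 : ℝ) ^ 600 < ‖y 0‖})
        (isOpen_Om.inter (isOpen_lt continuous_const h0)) inter_subset_left
        (fun k => 2 * k) (fun k => by omega) (fun k y hy => no_triple_even k y hy.1 hy.2) a ⟨ha, h⟩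
    · exact ball_local (Om ∩ {y | ‖y 0‖ < (1 / 4 : ℝ) ^ 500})
        (isOpen_Om.inter (isOpen_lt h0 continuous_const)) inter_subset_left
        (fun k => 2 * k + 1) (fun k => by omega)
        (fun k y hy => no_triple_odd k y hy.1 hy.2) a ⟨ha, lt_of_le_of_lt (not_lt.1 h) hlt⟩

end Pool.Agent.Results.MP_9cdd18_an.NotLocal
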